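import Pool.Agent.Lib.MP_24213f_lc.Defs
import Pool.Agent.Lib.MP_24213f_lc.NoTotal
import Pool.Agent.Lib.MP_24213f_lc.Strong

/-!
# Martin's axiom separates strong avoidance from total avoidance

Under Martin's axiom (only for `σ`-centered preorders) and the failure of the continuum hypothesis
there are `𝔠`-dense subsets of the Cantor space which strongly avoid one another, but no `𝔠`-dense
set totally avoids another one.
-/

set_option autoImplicit false

open Cardinal Set

namespace Pool.Agent.Results.MP_24213f_lc.MartinSeparates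

open Pool.Agent.Lib.MP_24213f_lc

/-- Assume Martin's axiom for `σ`-centered preorders and `ℵ₁ < 𝔠`. Then there are `𝔠`-dense sets
`X` and `Y` in the Cantor space which strongly avoid one another, while for all `𝔠`-dense sets `X'`
and `Y'` in the Cantor space, `X'` does not totally avoid `Y'`. -/
theorem result (hMA : MASigmaCentered) (hCH : (ℵ₁ : Cardinal.{0}) < 𝔠) :
    (∃ X Y : Set Cantor, IsKDense 𝔠 X ∧ IsKDense 𝔠 Y ∧
      StronglyAvoids X Y ∧ StronglyAvoids Y X) ∧
    ∀ X' Y' : Set Cantor, IsKDense 𝔠 X' → IsKDense 𝔠 Y' → ¬ TotallyAvoids X' Y' :=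
  ⟨exists_stronglyAvoiding hMA, fun _ _ hX hY => not_totallyAvoids hMA hCH hX hY⟩

end Pool.Agent.Results.MP_24213f_lc.MartinSeparates
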